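import Pool.Agent.helper40.SU.SpecC

/-!
# Row su:PGD (lattice points for one irregular part)
-/

set_option autoImplicit false

open Finset

namespace Pool.Agent.SU

theorem PGD_sqf (D D' x y : ℕ) (hD : Squarefree D) (hD' : Squarefree D') (hne : D ≠ D')
    (h : D * x ^ 2 = D' * y ^ 2) : x = 0 ∧ y = 0 := by
  by_contra hxy
  have hg : x.gcd y ≠ 0 := by
    intro h0
    exact hxy (Nat.gcd_eq_zero_iff.1 h0)
  obtain ⟨x', y', hc, hx, hy⟩ := Nat.exists_coprime x y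
  have h1 : D * x' ^ 2 = D' * y' ^ 2 := by
    have h2 : (D * x' ^ 2) * (x.gcd y) ^ 2 = (D' * y' ^ 2) * (x.gcd y) ^ 2 := by
      calc (D * x' ^ 2) * (x.gcd y) ^ 2 = D * (x' * x.gcd y) ^ 2 := by ring
        _ = D * x ^ 2 := by rw [← hx]
        _ = D' * y ^ 2 := h
        _ = D' * (y' * x.gcd y) ^ 2 := by rw [← hy]
        _ = (D' * y' ^ 2) * (x.gcd y) ^ 2 := by ring
    exact Nat.eq_of_mul_eq_mul_right (Nat.pos_of_ne_zero (pow_ne_zero 2 hg)) h2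
  have hc2 : (x' ^ 2).Coprime (y' ^ 2) := Nat.Coprime.pow 2 2 hc
  have hx1 : x' = 1 := by
    have h3 : x' * x' ∣ D' := by
      rw [← sq]
      exact hc2.dvd_of_dvd_mul_right ⟨D, by rw [← h1]; ring⟩
    exact Nat.isUnit_iff.1 (hD' x' h3)
  have hy1 : y' = 1 := by
    have h3 : y' * y' ∣ D := by
      rw [← sq]
      exact hc2.symm.dvd_of_dvd_mul_right ⟨D', by rw [h1]; ring⟩
    exact Nat.isUnit_iff.1 (hD y' h3)
  rw [hx1, hy1] at h1
  apply hne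
  simpa using h1

theorem PGD_cop (q w₀ f : ℕ) (hw : w₀.Coprime (2 * q)) (hf : f ≡ w₀ [MOD 4 * q]) : f.Coprime (32 * q) := by
  have h1 : w₀.Coprime 2 := Nat.Coprime.coprime_mul_right_right hw
  have h2 : w₀.Coprime q := Nat.Coprime.coprime_mul_left_right hw
  have h3 : w₀.Coprime (4 * q) := Nat.Coprime.mul_right (by
    have := h1.pow_right 2
    norm_num at this
    exact this) h2
  have h4 : f.Coprime (4 * q) := by
    unfold Nat.Coprime at h3 ⊢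
    rw [hf.gcd_eq, h3]
  have h5 : f.Coprime 4 := Nat.Coprime.coprime_mul_right_right h4
  have h6 : f.Coprime q := Nat.Coprime.coprime_mul_left_right h4
  have h7 : f.Coprime 2 := by
    have h8 : f.Coprime (2 * 2) := by
      norm_num
      exact h5
    exact Nat.Coprime.coprime_mul_right_right h8
  exact Nat.Coprime.mul_right (by
    have := h7.pow_right 5
    norm_num at this
    exact this) h6

/-- membership in the windows in terms of reals -/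
theorem PGD_sW (q s₀ D s : ℕ) (T δ : ℝ) (h : s ∈ sW q s₀ T δ D) :
    s ≡ s₀ [MOD 32 * q] ∧ T < √(D : ℝ) * s ∧ √(D : ℝ) * s ≤ (1 + δ ^ 2) * T := by
  unfold sW at h
  exact (mem_filter.1 h).2

theorem PGD_lat (D D' h : ℕ) (l : ℤ) (R : ℝ) (hD : Squarefree D) (hD' : Squarefree D') (hne : D ≠ D')
    (hDR : (D : ℝ) ≤ R) (hDR' : (D' : ℝ) ≤ R) (hl : (h : ℤ) ∣ l ^ 2 * D - D') :
    ∀ x y : ℤ, (x, y) ≠ (0, 0) → (h : ℤ) ∣ x - l * y → √((h : ℝ) / R) ≤ max |(x : ℝ)| |(y : ℝ)| := by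
  intro x y hxy hd
  have hD1 : (1 : ℝ) ≤ D := by exact_mod_cast Nat.one_le_iff_ne_zero.2 hD.ne_zero
  have hR : 0 < R := by linarith
  have h1 : (h : ℤ) ∣ D * x ^ 2 - D' * y ^ 2 := by
    obtain ⟨k, hk⟩ := hd
    obtain ⟨m, hm⟩ := hl
    have hx : x = l * y + h * k := by linarith
    refine ⟨D * k * (2 * l * y + h * k) + m * y ^ 2, ?_⟩
    rw [hx]
    linear_combination y ^ 2 * hm
  have h2 : (D : ℤ) * x ^ 2 - D' * y ^ 2 ≠ 0 := by
    intro h0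
    have h3 : D * x.natAbs ^ 2 = D' * y.natAbs ^ 2 := by
      have h4 : ((D * x.natAbs ^ 2 : ℕ) : ℤ) = ((D' * y.natAbs ^ 2 : ℕ) : ℤ) := by
        push_cast
        rw [sq_abs, sq_abs]
        linarith
      exact_mod_cast h4
    obtain ⟨h5, h6⟩ := PGD_sqf D D' _ _ hD hD' hne h3
    exact hxy (Prod.ext (Int.natAbs_eq_zero.1 h5) (Int.natAbs_eq_zero.1 h6))
  have h3 : (h : ℤ) ≤ |(D : ℤ) * x ^ 2 - D' * y ^ 2| := Int.le_of_dvd (abs_pos.2 h2) ((dvd_abs _ _).2 h1)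
  have h4 : (h : ℝ) ≤ |(D : ℝ) * (x : ℝ) ^ 2 - D' * (y : ℝ) ^ 2| := by exact_mod_cast h3
  obtain ⟨M, hM⟩ : ∃ M : ℝ, M = max |(x : ℝ)| |(y : ℝ)| := ⟨_, rfl⟩
  have hxM : |(x : ℝ)| ≤ M := by rw [hM]; exact le_max_left _ _
  have hyM : |(y : ℝ)| ≤ M := by rw [hM]; exact le_max_right _ _
  have hM0 : 0 ≤ M := (abs_nonneg _).trans hxM
  have hx2 : (x : ℝ) ^ 2 ≤ M ^ 2 := by
    rw [← sq_abs (x : ℝ)]
    exact pow_le_pow_left₀ (abs_nonneg _) hxM 2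
  have hy2 : (y : ℝ) ^ 2 ≤ M ^ 2 := by
    rw [← sq_abs (y : ℝ)]
    exact pow_le_pow_left₀ (abs_nonneg _) hyM 2
  have hD0 : (0 : ℝ) ≤ D := Nat.cast_nonneg _
  have hD0' : (0 : ℝ) ≤ D' := Nat.cast_nonneg _
  have a1 : (D : ℝ) * (x : ℝ) ^ 2 ≤ R * M ^ 2 := mul_le_mul hDR hx2 (sq_nonneg _) hR.le
  have a2 : (D' : ℝ) * (y : ℝ) ^ 2 ≤ R * M ^ 2 := mul_le_mul hDR' hy2 (sq_nonneg _) hR.le
  have a3 : 0 ≤ (D : ℝ) * (x : ℝ) ^ 2 := mul_nonneg hD0 (sq_nonneg _)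
  have a4 : 0 ≤ (D' : ℝ) * (y : ℝ) ^ 2 := mul_nonneg hD0' (sq_nonneg _)
  have h5 : |(D : ℝ) * (x : ℝ) ^ 2 - D' * (y : ℝ) ^ 2| ≤ R * M ^ 2 := by
    rw [abs_le]
    constructor <;> linarith
  rw [← hM]
  apply Real.sqrt_le_iff.2
  refine ⟨hM0, ?_⟩
  rw [div_le_iff₀ hR]
  linarith

/-- one cell -/
theorem PGD_cell (hROT : ROT_stmt) (q s₀ w₀ D D' j h l a b : ℕ) (T δ R : ℝ) (hq : Odd q)
    (hw : w₀.Coprime (2 * q)) (hT : 1 ≤ T) (hδ : 0 < δ) (hδ1 : δ ≤ 1) (hD : Squarefree D) (hD' : Squarefree D')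
    (hne : D ≠ D') (hDR : (D : ℝ) ≤ R) (hDR' : (D' : ℝ) ≤ R) (hj : 1 ≤ j) (hjh : j.Coprime h)
    (hl : (h : ℤ) ∣ (l : ℤ) ^ 2 * D - D') :
    (((PP q s₀ w₀ T δ D D').filter (fun x => x.2.2 = j * h ∧ (x.1 % j, x.2.1 % j) = (a, b) ∧
      (h : ℤ) ∣ (x.1 : ℤ) - l * x.2.1)).card : ℝ) ≤
      δ ^ 4 * T / (1024 * q ^ 2 * √(D : ℝ) * √(D' : ℝ) * j) + √(R * T) + 8 := by
  have hD1 : (1 : ℝ) ≤ D := by exact_mod_cast Nat.one_le_iff_ne_zero.2 hD.ne_zero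
  have hD1' : (1 : ℝ) ≤ D' := by exact_mod_cast Nat.one_le_iff_ne_zero.2 hD'.ne_zero
  have hR : 0 < R := by linarith
  have hT0 : 0 < T := by linarith
  have hsD : 1 ≤ √(D : ℝ) := Real.one_le_sqrt.2 hD1
  have hsD' : 1 ≤ √(D' : ℝ) := Real.one_le_sqrt.2 hD1'
  have hsD0 : 0 < √(D : ℝ) := by linarith
  have hsD0' : 0 < √(D' : ℝ) := by linarith
  have hq1 : 1 ≤ q := hq.pos
  have hqr : (1 : ℝ) ≤ q := by exact_mod_cast hq1
  have hjr : (1 : ℝ) ≤ j := by exact_mod_cast hj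
  have hq0 : (0 : ℝ) < q := by linarith
  have hj0 : (0 : ℝ) < j := by linarith
  obtain ⟨G, hG⟩ : ∃ G, G = (PP q s₀ w₀ T δ D D').filter (fun x => x.2.2 = j * h ∧ (x.1 % j, x.2.1 % j) = (a, b) ∧
      (h : ℤ) ∣ (x.1 : ℤ) - l * x.2.1) := ⟨_, rfl⟩
  rw [← hG]
  rcases G.eq_empty_or_nonempty with he | ⟨z₀, hz₀⟩
  · rw [he, card_empty]
    push_cast
    positivity
  have hmem : ∀ z ∈ G, (z.1 ≡ s₀ [MOD 32 * q] ∧ T < √(D : ℝ) * z.1 ∧ √(D : ℝ) * z.1 ≤ (1 + δ ^ 2) * T) ∧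
      (z.2.1 ≡ s₀ [MOD 32 * q] ∧ T < √(D' : ℝ) * z.2.1 ∧ √(D' : ℝ) * z.2.1 ≤ (1 + δ ^ 2) * T) ∧
      (z.2.2 ≡ w₀ [MOD 4 * q] ∧ T < z.2.2 ∧ (z.2.2 : ℝ) ≤ (1 + δ) * T) ∧ z.2.2 = j * h ∧
      z.1 % j = a ∧ z.2.1 % j = b ∧ (h : ℤ) ∣ (z.1 : ℤ) - l * z.2.1 := by
    intro z hz
    rw [hG] at hz
    obtain ⟨hz1, hz2, hz3, hz4⟩ := mem_filter.1 hz
    unfold PP at hz1
    obtain ⟨hz5, _⟩ := mem_filter.1 hz1
    obtain ⟨hz6, hz7⟩ := mem_product.1 hz5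
    obtain ⟨hz8, hz9⟩ := mem_product.1 hz7
    refine ⟨PGD_sW q s₀ D z.1 T δ hz6, PGD_sW q s₀ D' z.2.1 T δ hz8, ?_, hz2, congrArg Prod.fst hz3,
      congrArg Prod.snd hz3, hz4⟩
    unfold wW at hz9
    exact (mem_filter.1 hz9).2
  obtain ⟨c1, c2, c3, c4, c5, c6, c7⟩ := hmem z₀ hz₀
  -- coprimality
  have hfc : (j * h).Coprime (32 * q) := by
    rw [← c4]
    exact PGD_cop q w₀ _ hw c3.1
  have hjc : j.Coprime (32 * q) := Nat.Coprime.coprime_mul_right hfc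
  have hhc : h.Coprime (32 * q) := Nat.Coprime.coprime_mul_left hfc
  have hh1 : 1 ≤ h := by
    rcases Nat.eq_zero_or_pos h with h0 | h0
    · rw [h0, mul_zero] at c4
      have := c3.2.1
      rw [c4] at this
      push_cast at this
      linarith
    · exact h0
  have hhr : (1 : ℝ) ≤ h := by exact_mod_cast hh1
  have hjhT : T < (j : ℝ) * h := by
    have := c3.2.1
    rw [c4] at this
    push_cast at this
    exact this
  obtain ⟨M, hM⟩ : ∃ M : ℕ, M = 32 * q * j := ⟨_, rfl⟩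
  have hM0 : 0 < M := by
    rw [hM]
    positivity
  have hMr : (M : ℝ) = 32 * q * j := by
    rw [hM]
    push_cast
    ring
  have hMr0 : (0 : ℝ) < M := by exact_mod_cast hM0
  have hhM : IsCoprime (h : ℤ) (M : ℤ) := by
    rw [Nat.isCoprime_iff_coprime, hM]
    exact Nat.Coprime.mul_right hhc hjh.symm
  have hdv : ∀ s s' : ℕ, s ≡ s₀ [MOD 32 * q] → s' ≡ s₀ [MOD 32 * q] → s % j = s' % j →
      (M : ℤ) ∣ (s : ℤ) - s' := by
    intro s s' h1 h2 h3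
    have h4 : s' ≡ s [MOD 32 * q] := h2.trans h1.symm
    have h5 : s' ≡ s [MOD j] := h3.symm
    have h6 : s' ≡ s [MOD 32 * q * j] := (Nat.modEq_and_modEq_iff_modEq_mul hjc.symm).1 ⟨h4, h5⟩
    rw [← hM] at h6
    exact (Nat.modEq_iff_dvd).1 h6
  have hx : ∀ z ∈ G, (z.1 : ℤ) - z₀.1 = M * (((z.1 : ℤ) - z₀.1) / M) := by
    intro z hz
    obtain ⟨d1, _, _, _, d5, _, _⟩ := hmem z hz
    exact (Int.mul_ediv_cancel' (hdv z.1 z₀.1 d1.1 c1.1 (by rw [d5, c5]))).symm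
  have hy : ∀ z ∈ G, (z.2.1 : ℤ) - z₀.2.1 = M * (((z.2.1 : ℤ) - z₀.2.1) / M) := by
    intro z hz
    obtain ⟨_, d2, _, _, _, d6, _⟩ := hmem z hz
    exact (Int.mul_ediv_cancel' (hdv z.2.1 z₀.2.1 d2.1 c2.1 (by rw [d6, c6]))).symm
  have hinj : Set.InjOn (fun z : ℕ × ℕ × ℕ => ((((z.1 : ℤ) - z₀.1) / M, ((z.2.1 : ℤ) - z₀.2.1) / M) : ℤ × ℤ)) G := by
    intro z hz z' hz' heq
    have hz := mem_coe.1 hz
    have hz' := mem_coe.1 hz'
    have e1 := congrArg Prod.fst heq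
    have e2 := congrArg Prod.snd heq
    simp only at e1 e2
    have e3 := hx z hz
    have e4 := hx z' hz'
    have e5 := hy z hz
    have e6 := hy z' hz'
    rw [e1, ← e4] at e3
    rw [e2, ← e6] at e5
    have e7 : z.1 = z'.1 := by
      have : (z.1 : ℤ) = z'.1 := by linarith
      exact_mod_cast this
    have e8 : z.2.1 = z'.2.1 := by
      have : (z.2.1 : ℤ) = z'.2.1 := by linarith
      exact_mod_cast this
    have e9 : z.2.2 = z'.2.2 := by rw [(hmem z hz).2.2.2.1, (hmem z' hz').2.2.2.1]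
    exact Prod.ext e7 (Prod.ext e8 e9)
  rw [← card_image_of_injOn hinj]
  -- the application of the row `ROT`
  have hL1 : 0 ≤ δ ^ 2 * T / (M * √(D : ℝ)) := by positivity
  have hL2 : 0 ≤ δ ^ 2 * T / (M * √(D' : ℝ)) := by positivity
  have hLb : ∀ E : ℝ, 1 ≤ E → δ ^ 2 * T / (M * E) ≤ T / (32 * j) := by
    intro E hE
    have hδ2 : δ ^ 2 ≤ 1 := pow_le_one₀ hδ.le hδ1
    apply div_le_div₀ hT0.le (by nlinarith) (by positivity)
    rw [hMr]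
    have h1 : (32 : ℝ) * j ≤ 32 * q * j := by nlinarith
    have h2 : (32 : ℝ) * q * j ≤ 32 * q * j * E := by
      have : (0 : ℝ) ≤ 32 * q * j := by positivity
      nlinarith
    linarith
  have hTj : T / j < h := by
    rw [div_lt_iff₀ hj0]
    linarith
  have he : 0 < √((h : ℝ) / R) := Real.sqrt_pos.2 (by positivity)
  have hrot := hROT h l 0 (√((h : ℝ) / R)) (δ ^ 2 * T / (M * √(D : ℝ))) (δ ^ 2 * T / (M * √(D' : ℝ)))
    ((T / √(D : ℝ) - z₀.1) / M) ((T / √(D' : ℝ) - z₀.2.1) / M) hh1 he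
    (PGD_lat D D' h l R hD hD' hne hDR hDR' hl) hL1 (by
      have h1 := hLb _ hsD
      have h2 : T / (32 * j) ≤ T / j := by
        apply div_le_div_of_nonneg_left hT0.le hj0
        linarith
      linarith) hL2
    (G.image (fun z : ℕ × ℕ × ℕ => ((((z.1 : ℤ) - z₀.1) / M, ((z.2.1 : ℤ) - z₀.2.1) / M) : ℤ × ℤ))) (by
    intro p hp
    obtain ⟨z, hz, rfl⟩ := mem_image.1 hp
    obtain ⟨d1, d2, d3, d4, d5, d6, d7⟩ := hmem z hz
    have e1 := hx z hz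
    have e2 := hy z hz
    obtain ⟨x, hxd⟩ : ∃ x : ℤ, x = ((z.1 : ℤ) - z₀.1) / M := ⟨_, rfl⟩
    obtain ⟨y, hyd⟩ : ∃ y : ℤ, y = ((z.2.1 : ℤ) - z₀.2.1) / M := ⟨_, rfl⟩
    rw [← hxd] at e1
    rw [← hyd] at e2
    have e1' : (z.1 : ℝ) - z₀.1 = M * x := by exact_mod_cast e1
    have e2' : (z.2.1 : ℝ) - z₀.2.1 = M * y := by exact_mod_cast e2
    have hb : ∀ (E : ℝ) (s s1 : ℝ) (x : ℝ), 0 < E → T < E * s → E * s ≤ (1 + δ ^ 2) * T → s - s1 = M * x →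
        (T / E - s1) / M < x ∧ x ≤ (T / E - s1) / M + δ ^ 2 * T / (M * E) := by
      intro E s s1 x hE h1 h2 h3
      have h4 : T / E < s := by
        rw [div_lt_iff₀ hE]
        linarith
      have h5 : s ≤ (1 + δ ^ 2) * T / E := by
        rw [le_div_iff₀ hE]
        linarith
      have h6 : x = (s - s1) / M := by
        rw [h3]
        field_simp
      rw [h6]
      constructor
      · apply div_lt_div_of_pos_right _ hMr0
        linarith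
      · have h7 : (T / E - s1) / M + δ ^ 2 * T / (M * E) = ((1 + δ ^ 2) * T / E - s1) / M := by
          field_simp
          ring
        rw [h7]
        apply div_le_div_of_nonneg_right _ hMr0.le
        linarith
    obtain ⟨f1, f2⟩ := hb _ _ _ _ hsD0 d1.2.1 d1.2.2 e1'
    obtain ⟨g1, g2⟩ := hb _ _ _ _ hsD0' d2.2.1 d2.2.2 e2'
    show (T / √(D : ℝ) - z₀.1) / M < ((((z.1 : ℤ) - z₀.1) / M : ℤ) : ℝ) ∧
      ((((z.1 : ℤ) - z₀.1) / M : ℤ) : ℝ) ≤ (T / √(D : ℝ) - z₀.1) / M + δ ^ 2 * T / (M * √(D : ℝ)) ∧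
      (T / √(D' : ℝ) - z₀.2.1) / M < ((((z.2.1 : ℤ) - z₀.2.1) / M : ℤ) : ℝ) ∧
      ((((z.2.1 : ℤ) - z₀.2.1) / M : ℤ) : ℝ) ≤ (T / √(D' : ℝ) - z₀.2.1) / M + δ ^ 2 * T / (M * √(D' : ℝ)) ∧
      (h : ℤ) ∣ ((z.1 : ℤ) - z₀.1) / M - l * (((z.2.1 : ℤ) - z₀.2.1) / M) - 0
    rw [← hxd, ← hyd]
    refine ⟨f1, f2, g1, g2, ?_⟩
    have h1 : (h : ℤ) ∣ M * (x - l * y - 0) := by
      have h2 : (M : ℤ) * (x - l * y - 0) = ((z.1 : ℤ) - l * z.2.1) - ((z₀.1 : ℤ) - l * z₀.2.1) := by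
        linear_combination (-1 : ℤ) * e1 + l * e2
      rw [h2]
      exact dvd_sub d7 c7
    exact hhM.dvd_of_dvd_mul_left h1)
  refine hrot.trans ?_
  -- the bounds
  have hinv : 1 / (h : ℝ) ≤ j / T := by
    rw [div_le_div_iff₀ (by linarith) hT0]
    linarith
  have b1 : δ ^ 2 * T / (M * √(D : ℝ)) * (δ ^ 2 * T / (M * √(D' : ℝ))) / h ≤
      δ ^ 4 * T / (1024 * q ^ 2 * √(D : ℝ) * √(D' : ℝ) * j) := by
    calc δ ^ 2 * T / (M * √(D : ℝ)) * (δ ^ 2 * T / (M * √(D' : ℝ))) / h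
        = δ ^ 2 * T / (M * √(D : ℝ)) * (δ ^ 2 * T / (M * √(D' : ℝ))) * (1 / h) := by ring
      _ ≤ δ ^ 2 * T / (M * √(D : ℝ)) * (δ ^ 2 * T / (M * √(D' : ℝ))) * (j / T) :=
          mul_le_mul_of_nonneg_left hinv (mul_nonneg hL1 hL2)
      _ = δ ^ 4 * T / (1024 * q ^ 2 * √(D : ℝ) * √(D' : ℝ) * j) := by
          rw [hMr]
          field_simp
          ring
  have b2 : 4 * (δ ^ 2 * T / (M * √(D : ℝ)) + δ ^ 2 * T / (M * √(D' : ℝ))) / √((h : ℝ) / R) ≤ √(R * T) := by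
    rw [div_le_iff₀ he, ← Real.sqrt_mul (by positivity)]
    have h1 := hLb _ hsD
    have h2 := hLb _ hsD'
    apply Real.le_sqrt_of_sq_le
    have h3 : 4 * (δ ^ 2 * T / (M * √(D : ℝ)) + δ ^ 2 * T / (M * √(D' : ℝ))) ≤ T / j := by
      have h4 : 4 * (T / (32 * j) + T / (32 * j)) ≤ T / j := by
        have h5 : 4 * (T / (32 * (j : ℝ)) + T / (32 * j)) = (1 / 4) * (T / j) := by
          field_simp
          ring
        rw [h5]
        have : 0 ≤ T / j := by positivity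
        linarith
      linarith
    have h6 : (4 * (δ ^ 2 * T / (M * √(D : ℝ)) + δ ^ 2 * T / (M * √(D' : ℝ)))) ^ 2 ≤ (T / j) ^ 2 :=
      pow_le_pow_left₀ (by positivity) h3 2
    refine h6.trans ?_
    have h7 : R * T * ((h : ℝ) / R) = T * h := by
      field_simp
    rw [h7, sq]
    have h8 : T / j ≤ T := div_le_self hT0.le hjr
    calc T / j * (T / j) ≤ T * (T / j) := mul_le_mul_of_nonneg_right h8 (by positivity)
      _ ≤ T * h := mul_le_mul_of_nonneg_left hTj.le hT0.le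
  linarith

theorem PGD (hIRR : IRR_stmt) (hRHO : RHO_stmt) (hROT : ROT_stmt) : PGD_stmt := by
  intro q s₀ w₀ D D' j T δ R hq hw hT hδ hδ1 hD hD' hne hDR hDR' hj
  have hT0 : 0 < T := by linarith
  obtain ⟨B, hB⟩ : ∃ B : ℝ, B = δ ^ 4 * T / (1024 * q ^ 2 * √(D : ℝ) * √(D' : ℝ) * j) + √(R * T) + 8 := ⟨_, rfl⟩
  have hB0 : 0 ≤ B := by
    rw [hB]
    positivity
  rw [← hB]
  -- the index set
  obtain ⟨L, hL⟩ : ∃ L : ℕ → Finset ℕ, L = fun h => if h.Coprime (D * D') ∧ j.Coprime h then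
    (range h).filter (fun l : ℕ => (h : ℤ) ∣ (l : ℤ) ^ 2 * D - D') else ∅ := ⟨_, rfl⟩
  have hodd : ∀ h ∈ Wj q w₀ T δ j, Odd h := by
    intro h hh
    unfold Wj at hh
    have h1 := PGD_cop q w₀ (j * h) hw (mem_filter.1 hh).2.1
    have h2 : h.Coprime (32 * q) := Nat.Coprime.coprime_mul_left h1
    have h3 : h.Coprime 32 := Nat.Coprime.coprime_mul_right_right h2
    have h4 : h.Coprime (2 * 16) := by
      norm_num
      exact h3
    exact (Nat.coprime_two_right.1 (Nat.Coprime.coprime_mul_right_right h4))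
  have hLc : ∀ h ∈ Wj q w₀ T δ j, ((L h).card : ℝ) ≤ (rr (D * D') h : ℝ) := by
    intro h hh
    rw [hL]
    simp only
    split_ifs with hc
    · have h1 := hRHO.1 h D D' (hodd h hh) hc.1
      exact_mod_cast h1
    · have h1 := (hRHO.2 h (D * D') (hodd h hh)).1
      rw [card_empty]
      push_cast
      exact_mod_cast h1
  have hsub : (PP q s₀ w₀ T δ D D').filter (fun x => irr D x.1 x.2.2 = j) ⊆
      (Cst j D D' ×ˢ (Wj q w₀ T δ j).sigma L).biUnion (fun i =>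
        (PP q s₀ w₀ T δ D D').filter (fun x => x.2.2 = j * i.2.1 ∧ (x.1 % j, x.2.1 % j) = (i.1.1, i.1.2) ∧
          (i.2.1 : ℤ) ∣ (x.1 : ℤ) - i.2.2 * x.2.1)) := by
    intro x hx
    obtain ⟨hx1, hx2⟩ := mem_filter.1 hx
    have hx1' := hx1
    unfold PP at hx1'
    obtain ⟨hx3, hx4⟩ := mem_filter.1 hx1'
    obtain ⟨hx5, hx6⟩ := mem_product.1 hx3
    obtain ⟨hx7, hx8⟩ := mem_product.1 hx6
    unfold wW at hx8
    obtain ⟨hx9, hx10, hx11, hx12⟩ := mem_filter.1 hx8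
    have hf1 : 1 ≤ x.2.2 := by
      rcases Nat.eq_zero_or_pos x.2.2 with h0 | h0
      · rw [h0] at hx11
        push_cast at hx11
        linarith
      · exact h0
    obtain ⟨h, e1, e2, e3, e4, e5, l, e6, e7, e8⟩ := hIRR D D' x.1 x.2.1 x.2.2 hf1 hx4
    rw [hx2] at e1 e2 e5
    rw [mem_biUnion]
    refine ⟨((x.1 % j, x.2.1 % j), ⟨h, l⟩), ?_, ?_⟩
    · rw [mem_product, mem_sigma]
      refine ⟨e5, ?_, ?_⟩
      · show h ∈ Wj q w₀ T δ j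
        unfold Wj
        rw [mem_filter, mem_range]
        rw [e1] at hx10 hx11 hx12
        push_cast at hx11 hx12
        refine ⟨?_, hx10, hx11, hx12⟩
        have h1 : h ≤ x.2.2 := by
          rw [e1]
          exact Nat.le_mul_of_pos_left h hj
        exact lt_of_le_of_lt h1 (mem_range.1 hx9)
      · show l ∈ L h
        rw [hL]
        simp only
        have hc : h.Coprime (D * D') := Nat.Coprime.mul_right (Nat.Coprime.coprime_mul_right_right e3)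
          (Nat.Coprime.coprime_mul_right_right e4)
        rw [if_pos ⟨hc, e2⟩, mem_filter]
        exact ⟨e6, e7⟩
    · rw [mem_filter]
      exact ⟨hx1, e1, rfl, e8⟩
  have hcell : ∀ i ∈ Cst j D D' ×ˢ (Wj q w₀ T δ j).sigma L,
      ((PP q s₀ w₀ T δ D D').filter (fun x => x.2.2 = j * i.2.1 ∧ (x.1 % j, x.2.1 % j) = (i.1.1, i.1.2) ∧
          (i.2.1 : ℤ) ∣ (x.1 : ℤ) - i.2.2 * x.2.1)).card ≤ ⌊B⌋₊ := by
    intro i hi
    obtain ⟨hi1, hi2⟩ := mem_product.1 hi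
    obtain ⟨hi3, hi4⟩ := mem_sigma.1 hi2
    have hi5 : i.2.2 ∈ L i.2.1 := hi4
    rw [hL] at hi5
    simp only at hi5
    split_ifs at hi5 with hc
    · apply Nat.le_floor
      rw [hB]
      exact PGD_cell hROT q s₀ w₀ D D' j i.2.1 i.2.2 i.1.1 i.1.2 T δ R hq hw hT hδ hδ1 hD hD' hne hDR hDR' hj hc.2
        (mem_filter.1 hi5).2
    · exact absurd hi5 (notMem_empty _)
  have h1 := (card_le_card hsub).trans (card_biUnion_le_card_mul _ _ _ hcell)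
  have h2 : (((Cst j D D' ×ˢ (Wj q w₀ T δ j).sigma L).card : ℕ) : ℝ) ≤
      (Cst j D D').card * (∑ h ∈ Wj q w₀ T δ j, (rr (D * D') h : ℝ)) := by
    rw [card_product, card_sigma]
    push_cast
    exact mul_le_mul_of_nonneg_left (sum_le_sum hLc) (Nat.cast_nonneg _)
  calc (((PP q s₀ w₀ T δ D D').filter (fun x => irr D x.1 x.2.2 = j)).card : ℝ)
      ≤ (((Cst j D D' ×ˢ (Wj q w₀ T δ j).sigma L).card * ⌊B⌋₊ : ℕ) : ℝ) := by exact_mod_cast h1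
    _ = (((Cst j D D' ×ˢ (Wj q w₀ T δ j).sigma L).card : ℕ) : ℝ) * (⌊B⌋₊ : ℝ) := by push_cast; ring
    _ ≤ (Cst j D D').card * (∑ h ∈ Wj q w₀ T δ j, (rr (D * D') h : ℝ)) * B := by
        have h3 : 0 ≤ (Cst j D D').card * (∑ h ∈ Wj q w₀ T δ j, (rr (D * D') h : ℝ)) :=
          (Nat.cast_nonneg _).trans h2
        exact mul_le_mul h2 (Nat.floor_le hB0) (Nat.cast_nonneg _) h3

end Pool.Agent.SU
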