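import Pool.Agent.helper40.SU.SpecC

/-!
# Row su:ROT (points of a coset of a lattice in a box)
-/

set_option autoImplicit false

open Finset

namespace Pool.Agent.SU

/-- integers in a half open interval of length `m` -/
theorem ROT_ints (A : Finset ℤ) (u m : ℝ) (hm : 0 ≤ m) (h : ∀ n ∈ A, u < (n : ℝ) ∧ (n : ℝ) ≤ u + m) :
    (A.card : ℝ) ≤ m + 1 := by
  have hsub : A ⊆ Ioc ⌊u⌋ ⌊u + m⌋ := by
    intro n hn
    obtain ⟨h1, h2⟩ := h n hn
    rw [mem_Ioc]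
    exact ⟨Int.floor_lt.2 h1, Int.le_floor.2 h2⟩
  have h1 := card_le_card hsub
  rw [Int.card_Ioc] at h1
  have h2 : ⌊u⌋ ≤ ⌊u + m⌋ := Int.floor_le_floor (by linarith)
  have h3 : ((⌊u + m⌋ - ⌊u⌋).toNat : ℤ) = ⌊u + m⌋ - ⌊u⌋ := Int.toNat_of_nonneg (by linarith)
  have h4 : (A.card : ℝ) ≤ ((⌊u + m⌋ - ⌊u⌋ : ℤ) : ℝ) := by
    rw [← h3]
    push_cast
    exact_mod_cast h1
  have h5 := Int.floor_le (u + m)
  have h6 := Int.lt_floor_add_one u
  push_cast at h4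
  linarith

/-- the points of one block -/
theorem ROT_block (f b : ℕ) (l c a Y : ℤ) (L x₁ : ℝ) (hf : 1 ≤ f) (hb : 1 ≤ b) (hL : 0 ≤ L)
    (hab : IsCoprime a (b : ℤ)) (happ : |(l : ℝ) / f - (a : ℝ) / b| * b ≤ 1 / b) (A : Finset (ℤ × ℤ))
    (hA : ∀ z ∈ A, x₁ < z.1 ∧ (z.1 : ℝ) ≤ x₁ + L ∧ Y ≤ z.2 ∧ z.2 < Y + b ∧ (f : ℤ) ∣ z.1 - l * z.2 - c) :
    (A.card : ℝ) ≤ b * (L / f) + 3 := by
  have hf0 : (0 : ℝ) < f := by exact_mod_cast hf
  have hb0 : (0 : ℝ) < b := by exact_mod_cast hb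
  have hfz : (f : ℤ) ≠ 0 := by
    have : (0 : ℤ) < f := by exact_mod_cast hf
    exact this.ne'
  have hbz : (0 : ℤ) < b := by exact_mod_cast hb
  -- the integer `n`
  have hk : ∀ z ∈ A, z.1 = l * z.2 + c + f * ((z.1 - l * z.2 - c) / f) := by
    intro z hz
    have h1 := Int.mul_ediv_cancel' (hA z hz).2.2.2.2
    linarith
  have hinj : Set.InjOn (fun z : ℤ × ℤ => (z.2 - Y) * a + ((z.1 - l * z.2 - c) / f) * b) A := by
    intro z hz z' hz' h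
    have hz := mem_coe.1 hz
    have hz' := mem_coe.1 hz'
    simp only at h
    have h1 := hk z hz
    have h2 := hk z' hz'
    obtain ⟨_, _, h3, h4, _⟩ := hA z hz
    obtain ⟨_, _, h5, h6, _⟩ := hA z' hz'
    have h7 : (b : ℤ) ∣ a * (z.2 - z'.2) := ⟨(z'.1 - l * z'.2 - c) / f - (z.1 - l * z.2 - c) / f, by linear_combination h⟩
    have h8 : (b : ℤ) ∣ z.2 - z'.2 := hab.symm.dvd_of_dvd_mul_left h7
    have h9 : z.2 = z'.2 := by
      have := Int.eq_zero_of_abs_lt_dvd h8 (by rw [abs_lt]; constructor <;> linarith)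
      linarith
    have h10 : (z.1 - l * z.2 - c) / f = (z'.1 - l * z'.2 - c) / f := by
      have h11 : ((z.1 - l * z.2 - c) / f - (z'.1 - l * z'.2 - c) / f) * b = 0 := by
        rw [h9] at h ⊢
        linear_combination h
      rcases mul_eq_zero.1 h11 with h12 | h12
      · linarith
      · exact absurd h12 hbz.ne'
    refine Prod.ext ?_ h9
    rw [h1, h2, h10, h9]
  rw [← card_image_of_injOn hinj]
  have h := ROT_ints (A.image (fun z : ℤ × ℤ => (z.2 - Y) * a + ((z.1 - l * z.2 - c) / f) * b))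
    (b * ((x₁ - l * Y - c) / f) - 1) (b * (L / f) + 2) (by positivity) (by
    intro n hn
    obtain ⟨z, hz, rfl⟩ := mem_image.1 hn
    obtain ⟨h1, h2, h3, h4, _⟩ := hA z hz
    have h5 := hk z hz
    obtain ⟨k, hkk⟩ : ∃ k : ℤ, k = (z.1 - l * z.2 - c) / f := ⟨_, rfl⟩
    rw [← hkk] at h5 ⊢
    have h5' : (z.1 : ℝ) = l * z.2 + c + f * k := by exact_mod_cast h5
    -- i = z.2 - Y
    have hi0 : (0 : ℝ) ≤ (z.2 : ℝ) - Y := by
      have : (Y : ℝ) ≤ z.2 := by exact_mod_cast h3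
      linarith
    have hi1 : (z.2 : ℝ) - Y ≤ b := by
      have : (z.2 : ℝ) < Y + b := by exact_mod_cast h4
      linarith
    have herr : |b * ((z.2 : ℝ) - Y) * ((l : ℝ) / f - (a : ℝ) / b)| ≤ 1 := by
      rw [abs_mul, abs_of_nonneg (by positivity)]
      calc (b : ℝ) * ((z.2 : ℝ) - Y) * |(l : ℝ) / f - (a : ℝ) / b|
          ≤ b * b * |(l : ℝ) / f - (a : ℝ) / b| := by
            apply mul_le_mul_of_nonneg_right _ (abs_nonneg _)
            exact mul_le_mul_of_nonneg_left hi1 hb0.le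
        _ = b * (|(l : ℝ) / f - (a : ℝ) / b| * b) := by ring
        _ ≤ b * (1 / b) := mul_le_mul_of_nonneg_left happ hb0.le
        _ = 1 := by field_simp
    have hid : (((z.2 - Y) * a + k * b : ℤ) : ℝ) = b * ((z.1 - l * Y - c) / f) -
        b * ((z.2 : ℝ) - Y) * ((l : ℝ) / f - (a : ℝ) / b) := by
      push_cast
      rw [h5']
      field_simp
      ring
    rw [hid]
    obtain ⟨e1, e2⟩ := abs_le.1 herr
    have e3 : b * ((x₁ - l * Y - c) / f) < b * ((z.1 - l * Y - c) / f) := by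
      apply mul_lt_mul_of_pos_left _ hb0
      apply div_lt_div_of_pos_right _ hf0
      linarith
    have e4 : b * (((z.1 : ℝ) - l * Y - c) / f) ≤ b * ((x₁ - l * Y - c) / f) + b * (L / f) := by
      rw [← mul_add, ← add_div]
      apply mul_le_mul_of_nonneg_left _ hb0.le
      apply div_le_div_of_nonneg_right _ hf0.le
      linarith
    constructor
    · linarith
    · linarith)
  linarith

theorem ROT : ROT_stmt := by
  intro f l c e L₁ L₂ x₁ y₁ hf he hlat hL1 hL1f hL2 A hA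
  have hf0 : (0 : ℝ) < f := by exact_mod_cast hf
  obtain ⟨q, hq1, hq2⟩ := Real.exists_rat_abs_sub_le_and_den_le ((l : ℝ) / f) (n := ⌊(f : ℝ) / e⌋₊ + 1) (Nat.succ_pos _)
  obtain ⟨b, hb⟩ : ∃ b : ℕ, b = q.den := ⟨_, rfl⟩
  obtain ⟨a, ha⟩ : ∃ a : ℤ, a = q.num := ⟨_, rfl⟩
  have hb1 : 1 ≤ b := by
    rw [hb]
    exact q.pos
  have hb0 : (0 : ℝ) < b := by exact_mod_cast hb1
  have hqq : (q : ℝ) = (a : ℝ) / b := by
    rw [ha, hb]
    exact_mod_cast (Rat.num_div_den q).symm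
  have hab : IsCoprime a (b : ℤ) := by
    rw [ha, hb]
    exact Rat.isCoprime_num_den q
  rw [hqq, ← hb] at hq1
  rw [← hb] at hq2
  push_cast at hq1
  have hfl : (f : ℝ) / e < (⌊(f : ℝ) / e⌋₊ : ℝ) + 1 := Nat.lt_floor_add_one _
  have hfle : (⌊(f : ℝ) / e⌋₊ : ℝ) ≤ (f : ℝ) / e := Nat.floor_le (by positivity)
  have hbB : (b : ℝ) ≤ (⌊(f : ℝ) / e⌋₊ : ℝ) + 1 := by exact_mod_cast hq2
  have hn0 : (0 : ℝ) ≤ (⌊(f : ℝ) / e⌋₊ : ℝ) := Nat.cast_nonneg _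
  -- the vector
  have hvec : |((b * l - a * f : ℤ) : ℝ)| < e := by
    have e1 : ((b * l - a * f : ℤ) : ℝ) = f * b * ((l : ℝ) / f - (a : ℝ) / b) := by
      push_cast
      field_simp
    rw [e1, abs_mul, abs_of_nonneg (by positivity)]
    calc (f : ℝ) * b * |(l : ℝ) / f - (a : ℝ) / b| ≤ f * b * (1 / (((⌊(f : ℝ) / e⌋₊ : ℝ) + 1 + 1) * b)) :=
          mul_le_mul_of_nonneg_left hq1 (by positivity)
      _ = f / ((⌊(f : ℝ) / e⌋₊ : ℝ) + 1 + 1) := by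
          field_simp
      _ < e := by
          rw [div_lt_iff₀ (by positivity)]
          rw [div_lt_iff₀ he] at hfl
          nlinarith
  have hbe : e ≤ b := by
    have h1 := hlat (b * l - a * f) b (by
      intro h
      have h2 : (b : ℤ) = 0 := congrArg Prod.snd h
      have h3 : b = 0 := by exact_mod_cast h2
      omega) ⟨-a, by ring⟩
    rcases le_max_iff.1 h1 with h2 | h2
    · exact absurd h2 (not_le.2 hvec)
    · have h3 : |(((b : ℤ)) : ℝ)| = b := by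
        push_cast
        exact abs_of_nonneg hb0.le
      rwa [h3] at h2
  have happ : |(l : ℝ) / f - (a : ℝ) / b| * b ≤ 1 / b := by
    calc |(l : ℝ) / f - (a : ℝ) / b| * b ≤ 1 / (((⌊(f : ℝ) / e⌋₊ : ℝ) + 1 + 1) * b) * b :=
          mul_le_mul_of_nonneg_right hq1 hb0.le
      _ = 1 / ((⌊(f : ℝ) / e⌋₊ : ℝ) + 1 + 1) := by
          field_simp
      _ ≤ 1 / b := one_div_le_one_div_of_le hb0 (by linarith)
  -- blocks
  have hcard := card_le_mul_card_image (f := fun z : ℤ × ℤ => (z.2 - (⌊y₁⌋ + 1)) / (b : ℤ)) A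
    ⌊(b : ℝ) * (L₁ / f) + 3⌋₊ (by
      intro t _
      apply Nat.le_floor
      apply ROT_block f b l c a (⌊y₁⌋ + 1 + b * t) L₁ x₁ hf hb1 hL1 hab happ
      intro z hz
      obtain ⟨hz1, hz2⟩ := mem_filter.1 hz
      obtain ⟨h1, h2, h3, h4, h5⟩ := hA z hz1
      have hbz : (0 : ℤ) < b := by exact_mod_cast hb1
      have h6 := Int.mul_ediv_add_emod (z.2 - (⌊y₁⌋ + 1)) (b : ℤ)
      have h7 := Int.emod_nonneg (z.2 - (⌊y₁⌋ + 1)) hbz.ne'
      have h8 := Int.emod_lt_of_pos (z.2 - (⌊y₁⌋ + 1)) hbz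
      rw [hz2] at h6
      exact ⟨h1, h2, by linarith, by linarith, h5⟩)
  have himg : (((A.image (fun z : ℤ × ℤ => (z.2 - (⌊y₁⌋ + 1)) / (b : ℤ))).card : ℕ) : ℝ) ≤ L₂ / b + 1 := by
    have h1 := ROT_ints (A.image (fun z : ℤ × ℤ => (z.2 - (⌊y₁⌋ + 1)) / (b : ℤ))) (-1) (L₂ / b + 1) (by positivity) (by
      intro t ht
      obtain ⟨z, hz, rfl⟩ := mem_image.1 ht
      obtain ⟨_, _, h3, h4, _⟩ := hA z hz
      have hbz : (0 : ℤ) < b := by exact_mod_cast hb1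
      have h5 : ⌊y₁⌋ + 1 ≤ z.2 := by
        have := Int.floor_lt.2 h3
        omega
      have h6 : 0 ≤ (z.2 - (⌊y₁⌋ + 1)) / (b : ℤ) := Int.ediv_nonneg (by linarith) hbz.le
      have h7 : (0 : ℝ) ≤ (((z.2 - (⌊y₁⌋ + 1)) / (b : ℤ) : ℤ) : ℝ) := by exact_mod_cast h6
      have h8 : (z.2 - (⌊y₁⌋ + 1)) / (b : ℤ) * b ≤ z.2 - (⌊y₁⌋ + 1) := Int.ediv_mul_le _ hbz.ne'
      have h9 : (((z.2 - (⌊y₁⌋ + 1)) / (b : ℤ) : ℤ) : ℝ) * b ≤ (z.2 : ℝ) - (⌊y₁⌋ + 1) := by exact_mod_cast h8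
      have h10 := Int.lt_floor_add_one y₁
      constructor
      · linarith
      · have h11 : (((z.2 - (⌊y₁⌋ + 1)) / (b : ℤ) : ℤ) : ℝ) ≤ L₂ / b := by
          rw [le_div_iff₀ hb0]
          linarith
        linarith)
    -- improve by one
    have hsub : A.image (fun z : ℤ × ℤ => (z.2 - (⌊y₁⌋ + 1)) / (b : ℤ)) ⊆ Icc 0 ⌊L₂ / b⌋ := by
      intro t ht
      obtain ⟨z, hz, rfl⟩ := mem_image.1 ht
      obtain ⟨_, _, h3, h4, _⟩ := hA z hz
      have hbz : (0 : ℤ) < b := by exact_mod_cast hb1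
      have h5 : ⌊y₁⌋ + 1 ≤ z.2 := by
        have := Int.floor_lt.2 h3
        omega
      have h6 : 0 ≤ (z.2 - (⌊y₁⌋ + 1)) / (b : ℤ) := Int.ediv_nonneg (by linarith) hbz.le
      have h8 : (z.2 - (⌊y₁⌋ + 1)) / (b : ℤ) * b ≤ z.2 - (⌊y₁⌋ + 1) := Int.ediv_mul_le _ hbz.ne'
      have h9 : (((z.2 - (⌊y₁⌋ + 1)) / (b : ℤ) : ℤ) : ℝ) * b ≤ (z.2 : ℝ) - (⌊y₁⌋ + 1) := by exact_mod_cast h8
      have h10 := Int.lt_floor_add_one y₁
      rw [mem_Icc]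
      refine ⟨h6, Int.le_floor.2 ?_⟩
      rw [le_div_iff₀ hb0]
      linarith
    have h2 := card_le_card hsub
    rw [Int.card_Icc] at h2
    have h3 : 0 ≤ ⌊L₂ / (b : ℝ)⌋ := Int.floor_nonneg.2 (by positivity)
    have h4 : ((⌊L₂ / (b : ℝ)⌋ + 1 - 0).toNat : ℤ) = ⌊L₂ / (b : ℝ)⌋ + 1 := by
      rw [Int.toNat_of_nonneg (by linarith)]
      ring
    have h5 : (((⌊L₂ / (b : ℝ)⌋ + 1 - 0).toNat : ℕ) : ℝ) = (⌊L₂ / (b : ℝ)⌋ : ℝ) + 1 := by exact_mod_cast h4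
    have h6 := Int.floor_le (L₂ / (b : ℝ))
    have h7 : (((A.image (fun z : ℤ × ℤ => (z.2 - (⌊y₁⌋ + 1)) / (b : ℤ))).card : ℕ) : ℝ) ≤
        (((⌊L₂ / (b : ℝ)⌋ + 1 - 0).toNat : ℕ) : ℝ) := by exact_mod_cast h2
    linarith
  have hfl2 : ((⌊(b : ℝ) * (L₁ / f) + 3⌋₊ : ℕ) : ℝ) ≤ (b : ℝ) * (L₁ / f) + 3 := Nat.floor_le (by positivity)
  have hfin : (A.card : ℝ) ≤ ((b : ℝ) * (L₁ / f) + 3) * (L₂ / b + 1) := by
    calc (A.card : ℝ) ≤ ((⌊(b : ℝ) * (L₁ / f) + 3⌋₊ *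
          (A.image (fun z : ℤ × ℤ => (z.2 - (⌊y₁⌋ + 1)) / (b : ℤ))).card : ℕ) : ℝ) := by exact_mod_cast hcard
      _ = (⌊(b : ℝ) * (L₁ / f) + 3⌋₊ : ℝ) *
          ((A.image (fun z : ℤ × ℤ => (z.2 - (⌊y₁⌋ + 1)) / (b : ℤ))).card : ℝ) := by push_cast; ring
      _ ≤ ((b : ℝ) * (L₁ / f) + 3) * (L₂ / b + 1) := by
          apply mul_le_mul hfl2 himg (Nat.cast_nonneg _) (by positivity)
  have hb2 : (b : ℝ) * (L₁ / f) ≤ L₁ / e + 1 := by
    have h1 : (b : ℝ) ≤ (f : ℝ) / e + 1 := by linarith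
    calc (b : ℝ) * (L₁ / f) ≤ ((f : ℝ) / e + 1) * (L₁ / f) := mul_le_mul_of_nonneg_right h1 (by positivity)
      _ = L₁ / e + L₁ / f := by
          field_simp
      _ ≤ L₁ / e + 1 := by
          have : L₁ / f ≤ 1 := by
            rw [div_le_one hf0]
            exact hL1f
          linarith
  have hb3 : 3 * (L₂ / b) ≤ 3 * (L₂ / e) := by
    apply mul_le_mul_of_nonneg_left _ (by norm_num)
    exact div_le_div_of_nonneg_left hL2 he hbe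
  have hexp : ((b : ℝ) * (L₁ / f) + 3) * (L₂ / b + 1) = L₁ * L₂ / f + (b : ℝ) * (L₁ / f) + 3 * (L₂ / b) + 3 := by
    field_simp
    ring
  have h4 : 4 * (L₁ + L₂) / e = 4 * (L₁ / e) + 4 * (L₂ / e) := by ring
  have h5 : 0 ≤ L₁ / e := by positivity
  have h6 : 0 ≤ L₂ / e := by positivity
  rw [h4]
  linarith

end Pool.Agent.SU
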